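import Mathlib

/-! Absolutely continuous measures stay in the same iterated sequential closure. -/

namespace Pool.Agent.Results.MP_1e6c42_an.Yes

open Set Filter Topology MeasureTheory

/-- iterated sequential closures -/
noncomputable def SeqIt {E : Type*} [TopologicalSpace E] (α : Ordinal.{0}) (A : Set E) : Set E :=
  Ordinal.limitRecOn α A (fun _ S => seqClosure S) fun o _ f => ⋃ β, ⋃ h : β < o, f β h

/-- the Dirac measure at `x` as an element of `C(K)*` with the weak* topology -/
noncomputable def dirac {K : Type*} [TopologicalSpace K] (x : K) : WeakDual ℝ C(K, ℝ) :=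
  StrongDual.toWeakDual (ContinuousMap.evalCLM ℝ x)

variable {K : Type*} [TopologicalSpace K] [CompactSpace K]

noncomputable def mg (g : C(K, ℝ)) : WeakDual ℝ C(K, ℝ) →ₗ[ℝ] WeakDual ℝ C(K, ℝ) where
  toFun Φ := StrongDual.toWeakDual (Φ.toStrongDual.comp (ContinuousLinearMap.mul ℝ _ g))
  map_add' _ _ := rfl
  map_smul' _ _ := rfl

theorem tend {Φ : ℕ → WeakDual ℝ C(K, ℝ)} {Ψ : WeakDual ℝ C(K, ℝ)} :
    Tendsto Φ atTop (𝓝 Ψ) ↔ ∀ f, Tendsto (fun n => Φ n f) atTop (𝓝 (Ψ f)) :=
  tendsto_iff_forall_eval_tendsto_topDualPairing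

theorem mg_span (g : C(K, ℝ)) {T : Set (WeakDual ℝ C(K, ℝ))} (hT : T ⊆ range dirac) {Φ}
    (h : Φ ∈ Submodule.span ℝ T) : mg g Φ ∈ Submodule.span ℝ T := by
  refine (Submodule.span_le (p := (Submodule.span ℝ T).comap (mg g))).2 (fun x hx => ?_) h
  obtain ⟨y, rfl⟩ := hT hx
  have : mg g (dirac y) = g y • dirac y := DFunLike.ext _ _ fun f => rfl
  exact Submodule.mem_comap.2 (this ▸ Submodule.smul_mem _ _ (Submodule.subset_span hx))

theorem maps {E : Type*} [TopologicalSpace E] {A B : Set E} {φ : E → E} (hφ : Continuous φ)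
    (h : MapsTo φ A B) (α : Ordinal.{0}) : MapsTo φ (SeqIt α A) (SeqIt α B) := by
  unfold SeqIt
  induction α using Ordinal.limitRecOn with
  | zero => simpa using h
  | add_one α ih =>
    simp only [Ordinal.limitRecOn_add_one]
    rintro x ⟨u, h1, h2⟩
    exact ⟨_, fun n => ih (h1 n), (hφ.tendsto x).comp h2⟩
  | limit α hα ih =>
    simp only [Ordinal.limitRecOn_limit _ _ _ _ hα]
    exact mapsTo_iUnion₂_iUnion₂ ih

theorem sub {E : Type*} [TopologicalSpace E] {A B : Set E} (hB : IsClosed B)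
    (h : A ⊆ B) (α : Ordinal.{0}) : SeqIt α A ⊆ B := by
  unfold SeqIt
  induction α using Ordinal.limitRecOn with
  | zero => simpa using h
  | add_one α ih =>
    simp only [Ordinal.limitRecOn_add_one]
    rintro x ⟨u, h1, h2⟩
    exact hB.mem_of_tendsto h2 (.of_forall fun n => ih (h1 n))
  | limit α hα ih =>
    simp only [Ordinal.limitRecOn_limit _ _ _ _ hα]
    exact iUnion₂_subset ih

theorem co_sub : convexHull ℝ (range (dirac (K := K))) ⊆ Submodule.span ℝ (range (dirac (K := K))) :=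
  convexHull_min Submodule.subset_span (Submodule.convex _)

theorem bnd {α Φ} (h : Φ ∈ SeqIt α (convexHull ℝ (range (dirac (K := K))))) (d f : C(K, ℝ)) :
    ‖Φ (d * f)‖ ≤ ‖f‖ * Φ |d| := by
  refine sub (B := {Φ | ‖Φ (d * f)‖ ≤ ‖f‖ * Φ |d|}) (isClosed_le (WeakDual.eval_continuous _).norm
    ((WeakDual.eval_continuous _).const_mul _)) (convexHull_min ?_ ?_) α h
  · rintro _ ⟨x, rfl⟩
    change ‖d x * f x‖ ≤ ‖f‖ * |d x|
    rw [norm_mul, mul_comm]
    exact mul_le_mul_of_nonneg_right (f.norm_coe_le_norm x) (abs_nonneg _)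
  · intro Φ h1 Ψ h2 a b ha hb _
    change ‖a * Φ _ + b * Ψ _‖ ≤ ‖f‖ * (a * Φ _ + b * Ψ _)
    refine (norm_add_le _ _).trans ?_
    rw [norm_mul, norm_mul, Real.norm_of_nonneg ha, Real.norm_of_nonneg hb]
    have h3 := mul_le_mul_of_nonneg_left h1 ha
    have h4 := mul_le_mul_of_nonneg_left h2 hb
    linarith

theorem main {Φ Ψ : WeakDual ℝ C(K, ℝ)} {g : ℕ → C(K, ℝ)} {b : ℕ → ℝ} (hb : Summable b)
    (hg : ∀ j, Φ |g (j + 1) - g j| < b j) (hΨ : Tendsto (fun j => mg (g j) Φ) atTop (𝓝 Ψ))
    (α : Ordinal.{0}) (h : Φ ∈ SeqIt α (convexHull ℝ (range dirac))) :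
    Ψ ∈ SeqIt α (Submodule.span ℝ (range (dirac (K := K)))) := by
  induction α using Ordinal.limitRecOn with
  | zero =>
    simp only [SeqIt, Ordinal.limitRecOn_zero] at h ⊢
    obtain ⟨T, h1, h2⟩ := Submodule.mem_span_finite_of_mem_span (co_sub h)
    have := FiniteDimensional.span_finset ℝ T
    exact Submodule.span_mono h1 ((Submodule.closed_of_finiteDimensional _).mem_of_tendsto hΨ
      (.of_forall fun n => mg_span _ h1 h2))
  | limit α hα ih =>
    simp only [SeqIt, Ordinal.limitRecOn_limit _ _ _ _ hα, mem_iUnion] at h ⊢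
    obtain ⟨β, h1, h2⟩ := h
    exact ⟨β, h1, ih β h1 h2⟩
  | add_one α _ =>
    have h0 := bnd h
    simp only [SeqIt, Ordinal.limitRecOn_add_one] at h ⊢
    obtain ⟨u, h1, h2⟩ := h
    rw [tend] at h2 hΨ
    choose N hN using fun j => eventually_atTop.1 ((h2 _).eventually_lt_const (hg j))
    refine ⟨fun n => mg (g 0 + ∑ j ∈ Finset.range (n + 1) with N j ≤ n, (g (j + 1) - g j)) (u n),
      fun n => maps (φ := mg _)
        (WeakDual.continuous_of_continuous_eval fun f => WeakDual.eval_continuous _)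
        (fun Φ hΦ => mg_span _ subset_rfl (co_sub hΦ)) α (h1 n), tend.2 fun f => ?_⟩
    have h3 := tendsto_tsum_of_dominated_convergence (𝓕 := atTop) (hb.abs.mul_left ‖f‖)
      (f := fun n j => if j ∈ (Finset.range (n + 1)).filter (N · ≤ n) then
        u n ((g (j + 1) - g j) * f) else 0) (g := fun j => Φ ((g (j + 1) - g j) * f))
      (fun j => (h2 _).congr' ?_) (.of_forall fun n j => ?_)
    · have h4 : Summable fun j => Φ ((g (j + 1) - g j) * f) :=
        (hb.mul_left ‖f‖).of_norm_bounded fun j => (h0 _ _).trans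
          (mul_le_mul_of_nonneg_left (hg j).le (norm_nonneg _))
      have h5 : Φ (g 0 * f) + ∑' j, Φ ((g (j + 1) - g j) * f) = Ψ f := by
        refine tendsto_nhds_unique ((h4.hasSum.tendsto_sum_nat.const_add _).congr fun n => ?_) (hΨ f)
        rw [← map_sum, ← Finset.sum_mul, Finset.sum_range_sub, ← map_add, ← add_mul, add_sub_cancel]
        rfl
      refine (h5 ▸ (h2 _).add h3).congr fun n => ?_
      rw [tsum_eq_sum fun j hj => if_neg hj, Finset.sum_congr rfl fun j hj => if_pos hj,
        ← map_sum, ← Finset.sum_mul, ← map_add, ← add_mul]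
      rfl
    · filter_upwards [eventually_ge_atTop (N j), eventually_ge_atTop j] with n h4 h5
      rw [if_pos (by simp [h4, Nat.lt_succ_iff, h5])]
    · split_ifs with h4
      · exact (bnd (h1 n) _ _).trans (mul_le_mul_of_nonneg_left
          ((hN j n (Finset.mem_filter.1 h4).2).le.trans (le_abs_self _)) (norm_nonneg _))
      · rw [norm_zero]
        positivity

theorem result {K : Type*} [TopologicalSpace K] [CompactSpace K] [T2Space K] [MeasurableSpace K]
    [BorelSpace K] (α : Ordinal.{0}) (Φ Ψ : WeakDual ℝ C(K, ℝ)) (μ : Measure K)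
    [IsProbabilityMeasure μ] [μ.Regular] (ν : SignedMeasure K) (hΦ : ∀ f, Φ f = ∫ x, f x ∂μ)
    (hΨ : ∀ f, Ψ f = ∫ x, f x ∂ν.toJordanDecomposition.posPart -
      ∫ x, f x ∂ν.toJordanDecomposition.negPart)
    (hac : ∀ B, MeasurableSet B → μ B = 0 → ν.totalVariation B = 0)
    (h : Φ ∈ SeqIt α (convexHull ℝ (range dirac))) :
    Ψ ∈ SeqIt α (Submodule.span ℝ (range (dirac (K := K)))) := by
  have h0 := Measure.AbsolutelyContinuous.mk hac
  have hp := (Measure.le_add_right le_rfl).absolutelyContinuous.trans h0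
  have hq := (Measure.le_add_left le_rfl).absolutelyContinuous.trans h0
  have hi : ∀ (f : C(K, ℝ)) (m : Measure K) [IsFiniteMeasure m], Integrable f m := fun f m _ =>
    (BoundedContinuousFunction.mkOfCompact f).integrable m
  let r : K → ℝ := fun x => (ν.toJordanDecomposition.posPart.rnDeriv μ x).toReal -
    (ν.toJordanDecomposition.negPart.rnDeriv μ x).toReal
  have hr : Integrable r μ := Measure.integrable_toReal_rnDeriv.sub Measure.integrable_toReal_rnDeriv
  have h1 : ∀ f, Ψ f = ∫ x, r x * f x ∂μ := fun f => by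
    rw [hΨ, ← integral_toReal_rnDeriv_mul hp, ← integral_toReal_rnDeriv_mul hq, ← integral_sub
      ((integrable_toReal_rnDeriv_mul_iff hp).2 (hi f _))
      ((integrable_toReal_rnDeriv_mul_iff hq).2 (hi f _))]
    simp only [r, sub_mul]
  choose g hg _ using fun j : ℕ => hr.exists_boundedContinuous_integral_sub_le
    (ε := (1 / 2) ^ j) (by positivity)
  have h2 := fun j => (hr.sub (hi (g j).toContinuousMap μ)).norm
  refine main (g := fun j => (g j).toContinuousMap) (summable_geometric_two.mul_left 2)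
    (fun j => ?_) (tend.2 fun f => ?_) α h
  · rw [hΦ]
    refine (integral_mono (hi _ _) ((h2 (j + 1)).add (h2 j)) fun x => ?_).trans_lt ?_
    · change |g (j + 1) x - g j x| ≤ |r x - g (j + 1) x| + |r x - g j x|
      rw [abs_sub_comm (r x)]
      exact abs_sub_le _ _ _
    · refine (integral_add (h2 (j + 1)) (h2 j)).trans_lt ((add_le_add (hg _) (hg _)).trans_lt ?_)
      have : (0 : ℝ) < (1 / 2) ^ j := by positivity
      rw [pow_succ]
      linarith
  · refine tendsto_iff_norm_sub_tendsto_zero.2 (squeeze_zero (fun _ => norm_nonneg _) (fun j => ?_)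
      (g := fun j => (1 / 2) ^ j * ‖f‖) (by
        simpa using summable_geometric_two.tendsto_atTop_zero.mul_const ‖f‖))
    change ‖Φ ((g j).toContinuousMap * f) - _‖ ≤ _
    rw [hΦ, h1, ← integral_sub (hi _ _) (hr.mul_bdd f.continuous.aestronglyMeasurable
      (.of_forall f.norm_coe_le_norm))]
    refine (norm_integral_le_of_norm_le ((h2 j).mul_const ‖f‖) (.of_forall fun x => ?_)).trans ?_
    · change ‖g j x * f x - _‖ ≤ ‖r x - g j x‖ * _
      rw [← sub_mul, norm_mul, norm_sub_rev]
      exact mul_le_mul_of_nonneg_left (f.norm_coe_le_norm x) (norm_nonneg _)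
    · rw [integral_mul_const]
      exact mul_le_mul_of_nonneg_right (hg j) (norm_nonneg _)

end Pool.Agent.Results.MP_1e6c42_an.Yes
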